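import Pool.Agent.Helper33.PG.INP0

/-!
The family of curves is locally closed, and open in the space of all curves (module HLC2 of
project PG, `MP_39dd1a_ag`).
-/

set_option autoImplicit false

namespace Pool.Agent.Helper87.PG

open MvPolynomial Pool.Agent.Helper48.VMRT Pool.Agent.Helper87.VM Pool.Agent.Helper87.TC

theorem h33_zero_DX {D : VD} {m N : ℕ}
    {E : Fin (N + 1) → MvPolynomial (Option (Fin D.w) × D.ν) ℂ} {X DX : Set (Fin (N + 1) → ℂ)}
    (hTR : TR D m N E X DX) : (0 : Fin (N + 1) → ℂ) ∈ DX := by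
  have h1 := hTR.res.on 0 (h33_zero_FX hTR.td)
  have h2 := hTR.res.dcone 0 _ h1
  rwa [zero_smul] at h2

theorem st_HLC2 (hCURV : ST_CURV2) (hMEM : ST_MEM2) (hRESD : ST_RESD) : ST_HLC2 := by
  intro D m N E X DX hTR
  obtain ⟨L, hLcl, hLcone, hLne, hLiff, hL⟩ := hCURV D m N E X DX hTR
  have hz : (0 : Fin (N + 1) → ℂ) ∈ DX := h33_zero_DX hTR
  obtain ⟨x0, hx0, -⟩ := hTR.res.pm.exists_ne
  have hAcl := (hRESD N (4 ^ m * D.a) X hTR.res.pm.closed hTR.res.pm.cone ⟨x0, hx0⟩).2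
  have hC1 := (hRESD N (4 ^ m * D.a) DX hTR.res.dcl hTR.res.dcone ⟨0, hz⟩).1
  have hC2 := (hRESD N (4 ^ m * D.a) L hLcl hLcone hLne).2
  have key : ∀ c ∈ H2 D m N E DX, (∀ s t : ℂ, pt c s t ∈ X) ∧
      (∀ s t : ℂ, (s, t) ≠ (0, 0) → pt c s t ∉ DX) ∧ ∃ s t : ℂ, pt c s t ∉ L := by
    rintro c ⟨p, q, hLP, heq, hDX⟩
    obtain ⟨y, η, hy, hη, h1, h2, h3, h4, h5⟩ := hMEM D m N E X DX hTR p q hLP c heq hDX
    refine ⟨fun s t => ?_, hDX, ?_⟩
    · rw [h4]
      exact hTR.res.img _ (h2 s t)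
    · have hst : ∃ s t : ℂ, s * p none + t * q none ≠ 0 := by
        rcases hLP.ne with h | h
        · exact ⟨1, 0, by simpa using h⟩
        · exact ⟨0, 1, by simpa using h⟩
      obtain ⟨s, t, hst⟩ := hst
      have hne : (s, t) ≠ (0, 0) := by
        intro h
        rw [Prod.mk.injEq] at h
        apply hst
        rw [h.1, h.2]
        ring
      refine ⟨s, t, fun hmem => ?_⟩
      rw [h4] at hmem
      have h6 := (hLiff _ (h2 s t) (h5 s t hne)).1 hmem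
      apply hη.ne s t hne
      funext j
      have h7 := h6 j
      rw [h1, seg_apply] at h7
      have h8 : (s • p + t • q) none = s * p none + t * q none := rfl
      rw [h8] at h7
      exact (mul_eq_zero.1 h7).resolve_left hst
  have hmem : ∀ c : Coef N (4 ^ m * D.a), (∀ s t : ℂ, pt c s t ∈ X) →
      c ∉ {c : Coef N (4 ^ m * D.a) | ∃ s t : ℂ, (s, t) ≠ (0, 0) ∧ pt c s t ∈ DX} ∪
        {c : Coef N (4 ^ m * D.a) | ∀ s t : ℂ, pt c s t ∈ L} → c ∈ H2 D m N E DX := by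
    intro c hX hc
    rw [Set.mem_union, not_or] at hc
    refine hL c hX (fun s t hst hD => hc.1 ⟨s, t, hst, hD⟩) ?_
    by_contra hn
    push Not at hn
    exact hc.2 hn
  have hnot : ∀ c ∈ H2 D m N E DX,
      c ∉ {c : Coef N (4 ^ m * D.a) | ∃ s t : ℂ, (s, t) ≠ (0, 0) ∧ pt c s t ∈ DX} ∪
        {c : Coef N (4 ^ m * D.a) | ∀ s t : ℂ, pt c s t ∈ L} := by
    intro c hc
    obtain ⟨-, k2, s, t, k3⟩ := key c hc
    rintro (⟨s', t', hst, h⟩ | h)
    · exact k2 s' t' hst h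
    · exact k3 (h s t)
  refine ⟨⟨{c | ∀ s t : ℂ, pt c s t ∈ X}, _, hAcl, zclosed_union hC1 hC2, ?_⟩,
    _, zclosed_union hC1 hC2, fun c hc => ⟨fun h => hnot c h, fun h => hmem c hc.mem h⟩⟩
  ext c
  exact ⟨fun hc => ⟨(key c hc).1, hnot c hc⟩, fun hc => hmem c hc.1 hc.2⟩

end Pool.Agent.Helper87.PG
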