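import Pool.Agent.Helper87.PG.Stmts
import Pool.Agent.Helper28.TC.GENP

/-!
Module INP0 of project PG (`MP_39dd1a_ag`, hand-in `FiniteModels`): the input of the tower for
the blow-up.
-/

set_option autoImplicit false

namespace Pool.Agent.Helper87.PG

open MvPolynomial Pool.Agent.Helper48.VMRT Pool.Agent.Helper87.VM Pool.Agent.Helper87.TC

/-- There is an involution. -/
theorem h33_invol {D : VD} {m : ℕ} (h : TD D m) : ∃ τ : D.G, τ ≠ 1 ∧ τ * τ = 1 := by
  have h2 : 2 ∣ Nat.card D.G := by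
    rw [h.card]
    exact dvd_pow_self 2 (by have := h.pos; omega)
  obtain ⟨τ, hτ⟩ := exists_prime_orderOf_dvd_card' 2 h2
  refine ⟨τ, fun h1 => ?_, ?_⟩
  · rw [h1, orderOf_one] at hτ
    omega
  · have h3 := pow_orderOf_eq_one τ
    rw [hτ, pow_two] at h3
    exact h3

theorem h33_zero_FX {D : VD} {m : ℕ} (h : TD D m) :
    (0 : Option (Fin D.w) × D.ν → ℂ) ∈ FX D := by
  obtain ⟨τ, h1, h2⟩ := h33_invol h
  exact ⟨τ, h1, h2, Or.inl (map_zero _)⟩

/-- An eigenvector of an involution is in `FX`. -/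
theorem h33_eig {D : VD} {m : ℕ} (h : TD D m) {τ : D.G} (h1 : τ ≠ 1) (h2 : τ * τ = 1)
    {y : Option (Fin D.w) × D.ν → ℂ} {c : ℂ} (hc : D.ρY τ y = c • y) : y ∈ FX D := by
  by_cases hy : y = 0
  · rw [hy]; exact h33_zero_FX h
  have h3 : y = (c * c) • y := by
    have h4 : D.ρY τ (D.ρY τ y) = y := by
      rw [← Module.End.mul_apply, ← map_mul, h2, map_one, Module.End.one_apply]
    rw [hc, map_smul, hc, smul_smul] at h4
    exact h4.symm
  have h4 : (c * c - 1) • y = 0 := by rw [sub_smul, one_smul, ← h3, sub_self]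
  have h5 : c * c - 1 = 0 := (smul_eq_zero.1 h4).resolve_right hy
  have h6 : (c - 1) * (c + 1) = 0 := by linear_combination h5
  refine ⟨τ, h1, h2, ?_⟩
  rcases mul_eq_zero.1 h6 with h7 | h7
  · left
    rw [hc, sub_eq_zero.1 h7, one_smul]
  · right
    rw [hc, eq_neg_of_add_eq_zero_left h7, neg_one_smul]

/-- A power of a nontrivial element of a group of order `2 ^ m` is an involution. -/
theorem h33_pow {D : VD} {m : ℕ} (h : TD D m) {g : D.G} (hg : g ≠ 1) :
    ∃ k : ℕ, g ^ k ≠ 1 ∧ g ^ k * g ^ k = 1 := by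
  have h1 : orderOf g ∣ 2 ^ m := by rw [← h.card]; exact orderOf_dvd_natCard g
  obtain ⟨a, -, ha⟩ := (Nat.dvd_prime_pow Nat.prime_two).1 h1
  have ha0 : a ≠ 0 := by
    rintro rfl
    rw [pow_zero, orderOf_eq_one_iff] at ha
    exact hg ha
  obtain ⟨b, rfl⟩ := Nat.exists_eq_succ_of_ne_zero ha0
  refine ⟨2 ^ b, ?_, ?_⟩
  · intro h2
    have h3 := orderOf_dvd_of_pow_eq_one h2
    rw [ha] at h3
    have h4 := (Nat.pow_dvd_pow_iff_le_right (by norm_num : 1 < 2)).1 h3
    omega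
  · rw [← pow_add, ← two_mul, ← pow_succ', ← Nat.succ_eq_add_one, ← ha, pow_orderOf_eq_one]

theorem h33_inv_inv {D : VD} {τ g : D.G} (h1 : τ ≠ 1) (h2 : τ * τ = 1) :
    g * τ * g⁻¹ ≠ 1 ∧ (g * τ * g⁻¹) * (g * τ * g⁻¹) = 1 := by
  constructor
  · intro h
    apply h1
    have h3 : g * τ = g := by
      have := congrArg (fun x => x * g) h
      simpa using this
    exact mul_eq_left.1 h3
  · have : (g * τ * g⁻¹) * (g * τ * g⁻¹) = g * (τ * τ) * g⁻¹ := by group
    rw [this, h2, mul_one, mul_inv_cancel]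

/-- Points over a vector moved by the involutions are not in `FX`. -/
theorem h33_nfx (hHTR0 : ST_HTR0) {D : VD} {m : ℕ} (h : TD D m) {u : Fin D.w → ℂ}
    (hu : NF D u) {c₀ : ℂ} (hc₀ : c₀ ≠ 0) : c₀ • D.gr (ov 1 u) ∉ FX D := by
  have hD := h.good
  have hF : ∀ u : Fin D.w → ℂ, ev D.F (ov 1 u) ≠ 0 := by
    intro u h0
    have h1 := (hD.fd.zero (ov 1 u)).1 (fun j => congrFun h0 j)
    exact one_ne_zero h1.1
  rintro ⟨τ, h1, h2, hFX⟩
  have hne : D.gr (ov 1 u) ≠ 0 := seg_ne_zero (fun h0 => one_ne_zero (congrFun h0 none)) (hF u)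
  have hcancel : ∀ x y : Option (Fin D.w) × D.ν → ℂ, c₀ • x = c₀ • y → x = y := by
    intro x y hxy
    have h3 := congrArg (fun v => c₀⁻¹ • v) hxy
    simp only [smul_smul, inv_mul_cancel₀ hc₀, one_smul] at h3
    exact h3
  obtain ⟨e, he0, he⟩ : ∃ e : ℂ, e ≠ 0 ∧
      D.ρY τ (D.gr (ov 1 u)) = e • D.gr (ov 1 u) := by
    rcases hFX with h3 | h3
    · refine ⟨1, one_ne_zero, ?_⟩
      rw [one_smul]
      apply hcancel
      rw [← map_smul]
      exact h3
    · refine ⟨-1, neg_ne_zero.2 one_ne_zero, ?_⟩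
      rw [neg_one_smul]
      apply hcancel
      rw [← map_smul, smul_neg]
      exact h3
  rw [← (hHTR0 D hD τ).1, oext_ov] at he
  have h4 : seg (ov 1 u) (e • ev D.F (ov 1 u)) =
      seg (ov 1 (D.ρ τ u)) (ev D.F (ov 1 (D.ρ τ u))) := by
    rw [seg_smul_right]
    exact he.symm
  obtain ⟨c, -, hc, -⟩ := seg_eq_seg h4 (by
    rw [seg_smul_right]
    exact smul_ne_zero he0 hne)
  have hc1 : c = 1 := by
    have h5 := congrFun hc none
    rw [Pi.smul_apply, smul_eq_mul, ov_none, ov_none, mul_one] at h5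
    exact h5.symm
  rw [hc1, one_smul] at hc
  apply hu τ h1 h2
  funext i
  exact congrFun hc (some i)

theorem st_INP0 (hHTR0 : ST_HTR0) : ST_INP0 := by
  classical
  intro D m hTD
  have hD := hTD.good
  refine ⟨hD.Ypm, ⟨1, one_ne_zero, ?_⟩, fun g h => ⟨1, one_ne_zero, ?_⟩, hD.Yact, ?_, ?_, ?_,
    ?_, ?_⟩
  · rw [map_one, one_smul]
    rfl
  · rw [map_mul, one_smul]
    rfl
  · have h1 : FX D = ⋃ τ : {τ : D.G // τ ≠ 1 ∧ τ * τ = 1},
        ((LinearMap.ker (D.ρY τ.1 - LinearMap.id) : Set _) ∪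
          (LinearMap.ker (D.ρY τ.1 + LinearMap.id) : Set _)) := by
      ext y
      rw [Set.mem_iUnion]
      constructor
      · rintro ⟨τ, h1, h2, h3⟩
        refine ⟨⟨τ, h1, h2⟩, ?_⟩
        rcases h3 with h3 | h3
        · left
          change _ ∈ LinearMap.ker _
          rw [LinearMap.mem_ker, LinearMap.sub_apply, LinearMap.id_apply, sub_eq_zero]
          exact h3
        · right
          change _ ∈ LinearMap.ker _
          rw [LinearMap.mem_ker, LinearMap.add_apply, LinearMap.id_apply, add_eq_zero_iff_eq_neg]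
          exact h3
      · rintro ⟨⟨τ, h1, h2⟩, h3⟩
        refine ⟨τ, h1, h2, ?_⟩
        rcases h3 with h3 | h3
        · left
          change _ ∈ LinearMap.ker _ at h3
          rw [LinearMap.mem_ker, LinearMap.sub_apply, LinearMap.id_apply, sub_eq_zero] at h3
          exact h3
        · right
          change _ ∈ LinearMap.ker _ at h3
          rw [LinearMap.mem_ker, LinearMap.add_apply, LinearMap.id_apply,
            add_eq_zero_iff_eq_neg] at h3
          exact h3
    rw [h1]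
    exact zclosed_iUnion fun τ => zclosed_union (zclosed_submodule _) (zclosed_submodule _)
  · rintro a y ⟨τ, h1, h2, h | h⟩
    · exact ⟨τ, h1, h2, Or.inl (by rw [map_smul, h])⟩
    · exact ⟨τ, h1, h2, Or.inr (by rw [map_smul, h, smul_neg])⟩
  · rintro g y ⟨τ, h1, h2, h⟩
    obtain ⟨h3, h4⟩ := h33_inv_inv (g := g) h1 h2
    refine ⟨g * τ * g⁻¹, h3, h4, ?_⟩
    have h5 : D.ρY (g * τ * g⁻¹) (D.ρY g y) = D.ρY g (D.ρY τ y) := by
      rw [← Module.End.mul_apply, ← Module.End.mul_apply, ← map_mul, ← map_mul,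
        inv_mul_cancel_right]
    change D.ρY (g * τ * g⁻¹) (D.ρY g y) = D.ρY g y ∨
      D.ρY (g * τ * g⁻¹) (D.ρY g y) = -D.ρY g y
    rcases h with h | h
    · left; rw [h5, h]
    · right; rw [h5, h, map_neg]
  · intro y _ hyF g hg c hc
    apply hyF
    obtain ⟨k, h1, h2⟩ := h33_pow hTD hg
    have h3 : ∀ k : ℕ, (D.ρY (g ^ k)) y = c ^ k • y := by
      intro k
      induction k with
      | zero => rw [pow_zero, pow_zero, one_smul, map_one]; rfl
      | succ k ih =>
        rw [pow_succ', map_mul, Module.End.mul_apply, ih, map_smul]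
        change c ^ k • D.ρY g y = _
        rw [show D.ρY g y = c • y from hc, smul_smul, pow_succ]
    exact h33_eig hTD h1 h2 (h3 k)
  · -- a point which is not fixed
    obtain ⟨u, hu⟩ : ∃ u, NF D u := by
      obtain ⟨u, hu⟩ := genp_proper
        (S := fun τ : {τ : D.G // τ ≠ 1 ∧ τ * τ = 1} =>
          (LinearMap.ker (D.ρ τ.1 - LinearMap.id) : Set (Fin D.w → ℂ)))
        (fun τ => zclosed_submodule _) (by
          rintro ⟨τ, h1, h2⟩
          obtain ⟨x, hx⟩ := hTD.eff τ h1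
          refine ⟨x, fun h3 => hx ?_⟩
          change _ ∈ LinearMap.ker _ at h3
          rw [LinearMap.mem_ker, LinearMap.sub_apply, LinearMap.id_apply, sub_eq_zero] at h3
          exact h3)
      refine ⟨u, fun τ h1 h2 h3 => hu ⟨τ, h1, h2⟩ ?_⟩
      change _ ∈ LinearMap.ker _
      rw [LinearMap.mem_ker, LinearMap.sub_apply, LinearMap.id_apply, sub_eq_zero]
      exact h3
    refine ⟨D.gr (ov 1 u), D.gr_mem _, fun h => ?_⟩
    apply h33_nfx hHTR0 hTD hu one_ne_zero
    rw [one_smul]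
    exact h

end Pool.Agent.Helper87.PG
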