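import Pool.Agent.Helper33.PG.ISO2
import Pool.Agent.Helper33.TC.VT2

/-!
The tangents of the family at a general point (module VT2 of project PG, `MP_39dd1a_ag`).
-/

set_option autoImplicit false

namespace Pool.Agent.Helper87.PG

open MvPolynomial Pool.Agent.Helper48.VMRT Pool.Agent.Helper87.VM Pool.Agent.Helper87.TC

theorem st_VT2 (hUNI : ST_UNI2) (hSM : ST_SM2) (hTHR : ST_THR2) : ST_VT2 := by
  intro D m N E X DX hTR u hu c₀ hc₀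
  have hD : D.Good := hTR.td.good
  obtain ⟨i0⟩ := hD.ine
  obtain ⟨z0, hz0, hz00⟩ := hD.Zne i0
  have hz0Z : z0 ∈ D.Z := Set.mem_iUnion.2 ⟨i0, hz0⟩
  have hNF : NF D u := h33_GenL_NF hD hu.gl
  have hu0 : u ≠ 0 := h33_NF_ne hTR.td hNF
  obtain ⟨Φ, hΦ⟩ := hTHR D m N E X DX hTR u hu.gl c₀ hc₀
  -- the member of the family attached to `z`
  have key : ∀ z ∈ D.Z, z ≠ 0 → ∃ c ∈ H2 D m N E DX,
      (∀ s t : ℂ, s ^ 4 ^ m • pt c s t =
        ev E (c₀ • D.gr (s • ov 1 u + t • ov 0 z))) ∧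
      SmoothAt c 1 0 ∧ pt c 1 0 = ev E (c₀ • D.gr (ov 1 u)) ∧
      (∃ a : ℂ, a ≠ 0 ∧ dpt c 1 0 = a • dTh2 D E c₀ u z) ∧
      ∃ a : ℂ, a ≠ 0 ∧ dps c 1 0 = a • ev E (c₀ • D.gr (ov 1 u)) := by
    intro z hz hz0
    obtain ⟨h1, h2, -, h4⟩ := hΦ z hz
    obtain ⟨k1, ⟨a, ha, k2⟩, a', k3⟩ := hSM D m N E X DX hTR u hu c₀ hc₀ z hz hz0
      (fun i => eval z (Φ i)) h1
    refine ⟨_, h4 hz0, h1, k1, h2, ⟨a, ha, ?_⟩, a', ?_, k3⟩
    · rw [k2, vt2_lin]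
    · rintro rfl
      have h5 := k1.immersive
      rw [k3, zero_smul] at h5
      exact h5.ne_zero 0 rfl
  apply Set.Subset.antisymm
  · rintro w ⟨c, hcH, s, t, hsm, hpt, A, B, rfl⟩
    obtain ⟨z, hz, hz0, α, β, γ, δ, -, e1, e2, e3⟩ := hUNI D m N E X DX hTR u c₀ hc₀ hu0 hNF
      c hcH s t hsm.ne hpt
    obtain ⟨c1, -, h1, -, -, ⟨a, -, k2⟩, a', -, k3⟩ := key z hz hz0
    obtain ⟨d1, d2⟩ := vt2_repar (c := c) (c1 := c1) (K := 4 ^ m) e1 e2 (by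
      intro x y
      rw [e3, h1])
    refine ⟨((A * γ + B * δ) * a) • z, vt2_zcone hD _ hz, (A * α + B * β) * a', ?_⟩
    rw [vt2_lin, d1, d2, k2, k3]
    module
  · rintro w ⟨z, hz, a, rfl⟩
    by_cases hz0 : z = 0
    · obtain ⟨c, hc, -, k1, k2, -, a', ha', k3⟩ := key z0 hz0Z hz00
      refine ⟨c, hc, 1, 0, k1, k2, a / a', 0, ?_⟩
      have h4 : dTh2 D E c₀ u z = 0 := by
        have h := vt2_lin D E c₀ u z 0
        rw [zero_smul, zero_smul] at h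
        rw [hz0]
        exact h
      rw [h4, k3, smul_smul, div_mul_cancel₀ _ ha', zero_smul, zero_add, add_zero]
    · obtain ⟨c, hc, -, k1, k2, ⟨b, hb, k4⟩, a', ha', k3⟩ := key z hz hz0
      refine ⟨c, hc, 1, 0, k1, k2, a / a', b⁻¹, ?_⟩
      rw [k3, k4, smul_smul, smul_smul, div_mul_cancel₀ _ ha', inv_mul_cancel₀ hb, one_smul]
      exact add_comm _ _

end Pool.Agent.Helper87.PG
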